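import Pool.Agent.X109.TG.Main

/-!
# Sweeping along the graph of a function with a log-Lipschitz modulus
-/

set_option autoImplicit false

open Filter Topology

namespace X109.TG

open Pool.Agent.H740R3.Dust

/-- A descending column of visits. -/
theorem col (t : Task) {α c : ℝ} (hα : 0 < α) (hc0 : 0 ≤ c) (hc : t.M * Real.exp (-c) ≤ t.θ)
    (g : ℕ) (hg : c + 1 ≤ α * g) (l w : ℝ) (hl : α ≤ l) (hw : 0 < w) :
    ∀ (p n : ℕ) (m P Q : ℝ), α ≤ m - p * w → P ≤ l * n → Q ≤ m * n + 1 →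
      w * (n + (p + 1) * (g + t.L)) ≤ t.δ →
      Blk t {z | |z.1 - l| ≤ w ∧ m - p * w - w ≤ z.2 ∧ z.2 ≤ m + w} n P Q
        (n + (p + 1) * (g + t.L)) (l * ((n + (p + 1) * (g + t.L) : ℕ) : ℝ))
        ((m - p * w) * ((n + (p + 1) * (g + t.L) : ℕ) : ℝ)) := by
  have hδ1 := t.hδ1
  intro p
  -- one visit
  have one : ∀ (n : ℕ) (m P Q : ℝ), α ≤ m → P ≤ l * n → Q ≤ m * n + 1 →
      w * (n + (g + t.L)) ≤ t.δ →
      Blk t {z | |z.1 - l| ≤ w ∧ |z.2 - m| ≤ w} n P Q
        (n + (g + t.L)) (l * ((n + (g + t.L) : ℕ) : ℝ)) (m * ((n + (g + t.L) : ℕ) : ℝ)) := by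
    intro n m P Q hm hP hQ hwn
    have hg0 : (0:ℝ) ≤ g := by positivity
    have hn0 : (0:ℝ) ≤ n := by positivity
    have hL0 : (0:ℝ) ≤ t.L := by positivity
    have h1 : α * g ≤ l * g := mul_le_mul_of_nonneg_right hl hg0
    have h2 : α * g ≤ m * g := mul_le_mul_of_nonneg_right hm hg0
    have hv := Blk.visit t (n := n) (k := n + g) (p := P) (q := Q) (c := c) (l0 := l) (m0 := m)
      (by omega) hc0 hc (by push_cast; linarith) (by push_cast; linarith)
    have hmv : Blk t ∅ (n + g + t.L) (l * ((n + g : ℕ) : ℝ)) (m * ((n + g : ℕ) : ℝ))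
        (n + (g + t.L)) (l * ((n + (g + t.L) : ℕ) : ℝ)) (m * ((n + (g + t.L) : ℕ) : ℝ)) := by
      apply Blk.move t (by omega)
      · push_cast
        have : 0 ≤ l * t.L := mul_nonneg (by linarith) hL0
        linarith
      · push_cast
        have : 0 ≤ m * t.L := mul_nonneg (by linarith) hL0
        linarith
    refine (hv.comp hmv).mono ?_
    rintro z ⟨hz1, hz2⟩
    left
    have hk : w * ((n + g : ℕ) : ℝ) ≤ t.δ := by
      push_cast
      have : w * (n + g) ≤ w * (n + (g + t.L)) := mul_le_mul_of_nonneg_left (by linarith) hw.le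
      linarith
    have hk0 : (0:ℝ) ≤ ((n + g : ℕ) : ℝ) := by positivity
    exact ⟨(mul_le_mul_of_nonneg_right hz1 hk0).trans hk,
      (mul_le_mul_of_nonneg_right hz2 hk0).trans hk⟩
  induction p with
  | zero =>
    intro n m P Q hm hP hQ hwn
    have h1 := one n m P Q (by simpa using hm) hP hQ (by
      push_cast at hwn; linarith)
    have e : n + (0 + 1) * (g + t.L) = n + (g + t.L) := by ring
    rw [e]
    have e2 : m - ((0 : ℕ) : ℝ) * w = m := by push_cast; ring
    rw [e2]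
    refine h1.mono ?_
    rintro z ⟨hz1, hz2, hz3⟩
    exact ⟨hz1, abs_le.2 ⟨by linarith, by linarith⟩⟩
  | succ p ih =>
    intro n m P Q hm hP hQ hwn
    push_cast at hm hwn
    have hp0 : (0:ℝ) ≤ p := by positivity
    have hg0 : (0:ℝ) ≤ g := by positivity
    have hn0 : (0:ℝ) ≤ n := by positivity
    have hL0 : (0:ℝ) ≤ t.L := by positivity
    have hpw : 0 ≤ (p:ℝ) * w := by positivity
    have hX : 0 ≤ (p + 1 : ℝ) * (g + t.L) := by positivity
    have h1 := one n m P Q (by linarith) hP hQ (by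
      have : w * (n + (g + t.L)) ≤ w * (n + (p + 1 + 1) * (g + t.L)) :=
        mul_le_mul_of_nonneg_left (by linarith) hw.le
      linarith)
    have h2 := ih (n + (g + t.L)) (m - w) (l * ((n + (g + t.L) : ℕ) : ℝ))
      (m * ((n + (g + t.L) : ℕ) : ℝ)) (by linarith) le_rfl (by
        have : w * ((n + (g + t.L) : ℕ) : ℝ) ≤ 1 := by
          push_cast
          have : w * (n + (g + t.L)) ≤ w * (n + (p + 1 + 1) * (g + t.L)) :=
            mul_le_mul_of_nonneg_left (by linarith) hw.le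
          linarith
        linarith) (by
        push_cast
        refine le_trans (le_of_eq ?_) hwn
        ring)
    have e : n + (g + t.L) + (p + 1) * (g + t.L) = n + (p + 1 + 1) * (g + t.L) := by ring
    rw [e] at h2
    have e2 : m - w - p * w = m - ((p + 1 : ℕ) : ℝ) * w := by push_cast; ring
    rw [e2] at h2
    refine (h1.comp h2).mono ?_
    rintro z ⟨hz1, hz2, hz3⟩
    push_cast at hz2
    by_cases hcase : m - w ≤ z.2
    · left
      exact ⟨hz1, abs_le.2 ⟨by linarith, by linarith⟩⟩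
    · right
      push Not at hcase
      refine ⟨hz1, ?_, by linarith⟩
      push_cast
      linarith

/-- The graph of `F` over `[s, s')`, shifted by `a` horizontally. -/
def Gr (a : ℝ) (F : ℝ → ℝ) (s s' : ℝ) : Set (ℝ × ℝ) :=
  {z | ∃ r, s ≤ r ∧ r < s' ∧ z = (a + r, F r)}

/-- One stage: sweep the part of the graph over `[s, s + w)`. -/
theorem stage (t : Task) {α c a b : ℝ} (hα : 0 < α) (hαa : α ≤ a)
    (hc0 : 0 ≤ c) (hc : t.M * Real.exp (-c) ≤ t.θ)
    (g : ℕ) (hg : c + 1 ≤ α * g) (F : ℝ → ℝ) (hF : ∀ r, b ≤ F r)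
    (w : ℝ) (hw : 0 < w) (κ : ℕ) (hκ : α + κ * w ≤ b)
    (hmod : ∀ r r' : ℝ, |r - r'| ≤ w → |F r - F r'| ≤ κ * w) (s : ℝ) (hs : 0 ≤ s) (n : ℕ)
    (hwn : w * (n + (2 * κ + 1) * (g + t.L)) ≤ t.δ) :
    Blk t (Gr a F s (s + w)) n ((a + s) * n) (F s * n) (n + (2 * κ + 1) * (g + t.L))
      ((a + (s + w)) * ((n + (2 * κ + 1) * (g + t.L) : ℕ) : ℝ))
      (F (s + w) * ((n + (2 * κ + 1) * (g + t.L) : ℕ) : ℝ)) := by
  have hn0 : (0:ℝ) ≤ n := by positivity
  have hκw : 0 ≤ (κ:ℝ) * w := by positivity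
  have hFs := hF s
  have h1 := col t hα hc0 hc g hg (a + s) w (by linarith) hw (2 * κ) n (F s + κ * w)
    ((a + s) * n) (F s * n) (by push_cast; linarith) le_rfl (by nlinarith)
    (by push_cast; exact hwn)
  set n' : ℕ := n + (2 * κ + 1) * (g + t.L) with hn'
  have hn'0 : (0:ℝ) ≤ n' := by positivity
  have hmv : Blk t ∅ n' ((a + s) * n') ((F s + κ * w - (2 * κ : ℕ) * w) * n') n'
      ((a + (s + w)) * n') (F (s + w) * n') := by
    apply Blk.move t le_rfl
    · exact mul_le_mul_of_nonneg_right (by linarith) hn'0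
    · apply mul_le_mul_of_nonneg_right _ hn'0
      have h2 := hmod (s + w) s (by rw [add_sub_cancel_left, abs_of_pos hw])
      have h3 := (abs_le.1 h2).1
      push_cast
      linarith
  refine (h1.comp hmv).mono ?_
  rintro z ⟨r, hr1, hr2, rfl⟩
  left
  have h2 := hmod r s (by rw [abs_of_nonneg (by linarith)]; linarith)
  obtain ⟨h3, h4⟩ := abs_le.1 h2
  refine ⟨?_, ?_, ?_⟩
  · show |a + r - (a + s)| ≤ w
    rw [abs_of_nonneg (by linarith)]; linarith
  · show F s + κ * w - (2 * κ : ℕ) * w - w ≤ F r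
    push_cast; linarith
  · show F r ≤ F s + κ * w + w
    linarith

/-- Several stages with the same step. -/
theorem stages (t : Task) {α c a b : ℝ} (hα : 0 < α) (hαa : α ≤ a)
    (hc0 : 0 ≤ c) (hc : t.M * Real.exp (-c) ≤ t.θ)
    (g : ℕ) (hg : c + 1 ≤ α * g) (F : ℝ → ℝ) (hF : ∀ r, b ≤ F r)
    (w : ℝ) (hw : 0 < w) (κ : ℕ) (hκ : α + κ * w ≤ b)
    (hmod : ∀ r r' : ℝ, |r - r'| ≤ w → |F r - F r'| ≤ κ * w) (s : ℝ) (hs : 0 ≤ s) (n : ℕ) :
    ∀ J : ℕ, w * (n + J * ((2 * κ + 1) * (g + t.L))) ≤ t.δ →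
    Blk t (Gr a F s (s + J * w)) n ((a + s) * n) (F s * n) (n + J * ((2 * κ + 1) * (g + t.L)))
      ((a + (s + J * w)) * ((n + J * ((2 * κ + 1) * (g + t.L)) : ℕ) : ℝ))
      (F (s + J * w) * ((n + J * ((2 * κ + 1) * (g + t.L)) : ℕ) : ℝ)) := by
  intro J
  induction J with
  | zero =>
    intro _
    have e : n + 0 * ((2 * κ + 1) * (g + t.L)) = n := by ring
    rw [e]
    have e2 : s + ((0 : ℕ) : ℝ) * w = s := by push_cast; ring
    rw [e2]
    refine (Blk.move t le_rfl le_rfl le_rfl).mono ?_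
    rintro z ⟨r, hr1, hr2, -⟩
    exact absurd hr1 (not_le.2 hr2)
  | succ J ih =>
    intro h
    push_cast at h
    have hJ0 : (0:ℝ) ≤ J := by positivity
    have hX : 0 ≤ (2 * (κ:ℝ) + 1) * (g + t.L) := by positivity
    have h1 := ih (by
      have : w * (n + J * ((2 * κ + 1) * (g + t.L)))
          ≤ w * (n + (J + 1) * ((2 * κ + 1) * (g + t.L))) :=
        mul_le_mul_of_nonneg_left (by linarith) hw.le
      linarith)
    have h2 := stage t hα hαa hc0 hc g hg F hF w hw κ hκ hmod (s + J * w) (by positivity)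
      (n + J * ((2 * κ + 1) * (g + t.L))) (by
        push_cast
        refine le_trans (le_of_eq ?_) h
        ring)
    have e : n + J * ((2 * κ + 1) * (g + t.L)) + (2 * κ + 1) * (g + t.L)
        = n + (J + 1) * ((2 * κ + 1) * (g + t.L)) := by ring
    rw [e] at h2
    have e2 : s + J * w + w = s + ((J + 1 : ℕ) : ℝ) * w := by push_cast; ring
    rw [e2] at h2
    refine (h1.comp h2).mono ?_
    rintro z ⟨r, hr1, hr2, rfl⟩
    rcases lt_or_ge r (s + J * w) with hr | hr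
    · left; exact ⟨r, hr1, hr, rfl⟩
    · right; exact ⟨r, hr, hr2, rfl⟩

end X109.TG
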