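import Pool.Agent.X109.TG.Col

/-!
# Sweeping the whole graph: dyadic time blocks and the divergence of the harmonic series
-/

set_option autoImplicit false

open Filter Topology

namespace X109.TG

open Pool.Agent.H740R3.Dust

theorem ev (C ε : ℝ) (hε : 0 < ε) : ∀ᶠ k : ℕ in atTop, (k : ℝ) + C ≤ ε * 2 ^ k := by
  have h1 : Tendsto (fun k : ℕ => (k : ℝ) ^ 1 * (1 / 2 : ℝ) ^ k) atTop (𝓝 0) :=
    tendsto_pow_const_mul_const_pow_of_abs_lt_one 1 (by rw [abs_of_pos] <;> norm_num)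
  have h2 : Tendsto (fun k : ℕ => C * (1 / 2 : ℝ) ^ k) atTop (𝓝 (C * 0)) :=
    (tendsto_pow_atTop_nhds_zero_of_lt_one (by norm_num) (by norm_num)).const_mul C
  have h3 := h1.add h2
  rw [mul_zero, add_zero] at h3
  filter_upwards [h3.eventually (gt_mem_nhds hε)] with k hk
  have h4 : (0:ℝ) < 2 ^ k := by positivity
  have h5 : ((k : ℝ) ^ 1 * (1 / 2 : ℝ) ^ k + C * (1 / 2 : ℝ) ^ k) * 2 ^ k = k + C := by
    have : (1 / 2 : ℝ) ^ k * 2 ^ k = 1 := by rw [← mul_pow]; norm_num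
    calc ((k : ℝ) ^ 1 * (1 / 2 : ℝ) ^ k + C * (1 / 2 : ℝ) ^ k) * 2 ^ k
        = (k + C) * ((1 / 2 : ℝ) ^ k * 2 ^ k) := by ring
      _ = k + C := by rw [this, mul_one]
  rw [← h5]
  exact (mul_lt_mul_of_pos_right hk h4).le

/-- The cost of one stage in the `k`-th dyadic block. -/
def cost (K0 g L k : ℕ) : ℕ := (2 * (k + K0 + 1) + 1) * (g + L)

/-- One dyadic block of times `[2^k, 2^(k+1)]`. -/
theorem block (t : Task) {α c a b : ℝ} (hα : 0 < α) (hαa : α ≤ a)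
    (hc0 : 0 ≤ c) (hc : t.M * Real.exp (-c) ≤ t.θ)
    (g : ℕ) (hg : c + 1 ≤ α * g) (F : ℝ → ℝ) (hF : ∀ r, b ≤ F r)
    (hmod : ∀ (K : ℕ) (r r' : ℝ), |F r - F r'| ≤ K * |r - r'| + (1 / 2 : ℝ) ^ K)
    (K0 : ℕ) (hK0 : (1 / 2 : ℝ) ^ K0 ≤ t.δ / 2) (k : ℕ)
    (hk1 : ((k + K0 + 1 : ℕ) : ℝ) * (t.δ / 2 ^ (k + 1)) ≤ b - α)
    (hk2 : 2 * cost K0 g t.L k ≤ 2 ^ k) (s : ℝ) (hs : 0 ≤ s) :
    ∃ A : ℝ, t.δ / (4 * cost K0 g t.L k) ≤ A ∧
      Blk t (Gr a F s (s + A)) (2 ^ k) ((a + s) * ((2 ^ k : ℕ) : ℝ)) (F s * ((2 ^ k : ℕ) : ℝ))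
        (2 ^ (k + 1)) ((a + (s + A)) * ((2 ^ (k + 1) : ℕ) : ℝ))
        (F (s + A) * ((2 ^ (k + 1) : ℕ) : ℝ)) := by
  have hδ := t.hδ
  have hδ1 := t.hδ1
  have hb0 : 0 < b := by
    have : 0 ≤ ((k + K0 + 1 : ℕ) : ℝ) * (t.δ / 2 ^ (k + 1)) := by positivity
    linarith
  set w : ℝ := t.δ / 2 ^ (k + 1) with hw
  have hw0 : 0 < w := by positivity
  set S : ℕ := cost K0 g t.L k with hS
  have hgpos : 0 < g := by
    rcases Nat.eq_zero_or_pos g with h | h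
    · subst h; simp at hg; linarith
    · exact h
  have hSpos : 0 < S := by rw [hS, cost]; positivity
  set J : ℕ := 2 ^ k / S with hJ
  have hJS : J * S ≤ 2 ^ k := Nat.div_mul_le_self _ _
  have hJS2 : 2 ^ k < J * S + S := by
    have := Nat.lt_div_mul_add (a := 2 ^ k) hSpos
    exact this
  have hmod' : ∀ r r' : ℝ, |r - r'| ≤ w → |F r - F r'| ≤ ((k + K0 + 1 : ℕ) : ℝ) * w := by
    intro r r' hr
    refine (hmod (k + K0) r r').trans ?_
    have h1 : ((k + K0 : ℕ) : ℝ) * |r - r'| ≤ ((k + K0 : ℕ) : ℝ) * w :=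
      mul_le_mul_of_nonneg_left hr (by positivity)
    have h2 : (1 / 2 : ℝ) ^ (k + K0) ≤ w := by
      rw [pow_add]
      calc (1 / 2 : ℝ) ^ k * (1 / 2) ^ K0 ≤ (1 / 2 : ℝ) ^ k * (t.δ / 2) := by gcongr
        _ = w := by rw [hw, pow_succ, one_div, inv_pow]; field_simp
    push_cast at h1 ⊢
    linarith
  have h2k : w * ((2 ^ (k + 1) : ℕ) : ℝ) = t.δ := by
    rw [hw]; push_cast; field_simp
  have hst := stages t hα hαa hc0 hc g hg F hF w hw0 (k + K0 + 1) (by linarith) hmod' s hs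
    (2 ^ k) J (by
      have h3 : ((2 ^ k : ℕ) : ℝ) + J * ((2 * ((k + K0 + 1 : ℕ) : ℝ) + 1) * (g + t.L))
          ≤ ((2 ^ (k + 1) : ℕ) : ℝ) := by
        have h4 : 2 ^ k + J * ((2 * (k + K0 + 1) + 1) * (g + t.L)) ≤ 2 ^ (k + 1) := by
          have : J * ((2 * (k + K0 + 1) + 1) * (g + t.L)) ≤ 2 ^ k := hJS
          rw [pow_succ]; omega
        exact_mod_cast h4
      calc w * (((2 ^ k : ℕ) : ℝ) + J * ((2 * ((k + K0 + 1 : ℕ) : ℝ) + 1) * (g + t.L)))
          ≤ w * ((2 ^ (k + 1) : ℕ) : ℝ) := mul_le_mul_of_nonneg_left h3 hw0.le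
        _ ≤ t.δ := h2k.le)
  refine ⟨J * w, ?_, ?_⟩
  · have h5 : (2:ℝ) ^ k ≤ 2 * (J * S) := by
      have : 2 ^ k ≤ 2 * (J * S) := by omega
      exact_mod_cast this
    have hS0 : (0:ℝ) < S := by exact_mod_cast hSpos
    rw [div_le_iff₀ (by positivity)]
    have h6 : w * 2 ^ k = t.δ / 2 := by
      rw [hw, pow_succ]; field_simp
    have h7 : w * 2 ^ k ≤ w * (2 * (J * S)) := mul_le_mul_of_nonneg_left h5 hw0.le
    have h8 : (J:ℝ) * w * (4 * S) = 2 * (w * (2 * (J * S))) := by ring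
    rw [h8]
    linarith
  · have hle : 2 ^ k + J * ((2 * (k + K0 + 1) + 1) * (g + t.L)) ≤ 2 ^ (k + 1) := by
      have : J * ((2 * (k + K0 + 1) + 1) * (g + t.L)) ≤ 2 ^ k := hJS
      rw [pow_succ]; omega
    have hler : ((2 ^ k + J * ((2 * (k + K0 + 1) + 1) * (g + t.L)) : ℕ) : ℝ)
        ≤ ((2 ^ (k + 1) : ℕ) : ℝ) := by exact_mod_cast hle
    have hJw : 0 ≤ (J:ℝ) * w := by positivity
    have hmv := Blk.move t (p := (a + (s + J * w)) *
        ((2 ^ k + J * ((2 * (k + K0 + 1) + 1) * (g + t.L)) : ℕ) : ℝ))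
      (p' := (a + (s + J * w)) * ((2 ^ (k + 1) : ℕ) : ℝ))
      (q := F (s + J * w) * ((2 ^ k + J * ((2 * (k + K0 + 1) + 1) * (g + t.L)) : ℕ) : ℝ))
      (q' := F (s + J * w) * ((2 ^ (k + 1) : ℕ) : ℝ)) hle
      (mul_le_mul_of_nonneg_left hler (by linarith))
      (mul_le_mul_of_nonneg_left hler (by linarith [hF (s + J * w)]))
    refine (hst.comp hmv).mono ?_
    intro z hz
    exact Or.inl hz

/-- One task over the graph of `F` on `[0, 1]`, from any starting time. -/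
theorem oneTask (t : Task) {a b A A' : ℝ} (ha : 0 < a) (hb : 0 < b) (hA : 0 < A) (hA' : 0 < A')
    (F : ℝ → ℝ) (hF : ∀ r, b ≤ F r)
    (hmod : ∀ (K : ℕ) (r r' : ℝ), |F r - F r'| ≤ K * |r - r'| + (1 / 2 : ℝ) ^ K) (N : ℕ) :
    ∃ n' : ℕ, Blk t {z | ∃ r, 0 ≤ r ∧ r ≤ 1 ∧ z = (a + r, F r)} N (A * N) (A' * N)
      n' (A * n') (A' * n') := by
  set α := min a b / 2 with hα
  have hα0 : 0 < α := by have := lt_min ha hb; positivity
  have hαa : α ≤ a := by have := min_le_left a b; linarith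
  have hαb : α ≤ b / 2 := by have := min_le_right a b; linarith
  have hM := t.M_nonneg
  have hθ := t.hθ
  have hδ := t.hδ
  have hδ1 := t.hδ1
  obtain ⟨c, hc0, hc⟩ : ∃ c : ℝ, 0 ≤ c ∧ t.M * Real.exp (-c) ≤ t.θ := by
    refine ⟨t.M / t.θ, by positivity, ?_⟩
    have h1 : t.M / t.θ + 1 ≤ Real.exp (t.M / t.θ) := Real.add_one_le_exp _
    rw [Real.exp_neg, ← div_eq_mul_inv, div_le_iff₀ (Real.exp_pos _)]
    have h2 : t.θ * (t.M / t.θ) = t.M := by field_simp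
    nlinarith
  obtain ⟨g, hg⟩ : ∃ g : ℕ, c + 1 ≤ α * g := by
    obtain ⟨g, hg⟩ := exists_nat_ge ((c + 1) / α)
    exact ⟨g, by rwa [div_le_iff₀' hα0] at hg⟩
  have hgpos : 0 < g := by
    rcases Nat.eq_zero_or_pos g with h | h
    · subst h; simp at hg; linarith
    · exact h
  obtain ⟨K0, hK0⟩ := exists_pow_lt_of_lt_one (show (0:ℝ) < t.δ / 2 by positivity)
    (show (1 / 2 : ℝ) < 1 by norm_num)
  have hgL : (0:ℝ) < g + t.L := by
    have : (0:ℝ) < g := by exact_mod_cast hgpos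
    positivity
  -- the starting block
  have hev := (ev (K0 + 2) (1 / (4 * (g + t.L))) (by positivity)).and
    ((ev (K0 + 2) (b / 2) (by positivity)).and
      ((ev (A * N) a ha).and ((ev (A' * N) b hb).and (ev N 1 one_pos))))
  obtain ⟨k0, hk0⟩ := eventually_atTop.1 hev
  have hcost : ∀ k, k0 ≤ k → 2 * cost K0 g t.L k ≤ 2 ^ k := by
    intro k hk
    have h1 := (hk0 k hk).1
    have h2 : (2 * cost K0 g t.L k : ℝ) ≤ 2 ^ k := by
      rw [cost]
      push_cast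
      have h3 : ((k:ℝ) + (K0 + 2)) * (4 * (g + t.L)) ≤ 2 ^ k := by
        have := mul_le_mul_of_nonneg_right h1 (show (0:ℝ) ≤ 4 * (g + t.L) by positivity)
        refine this.trans (le_of_eq ?_)
        field_simp
      refine le_trans ?_ h3
      have h4 : 2 * (2 * ((k:ℝ) + K0 + 1) + 1) ≤ (k + (K0 + 2)) * 4 := by linarith
      have h5 := mul_le_mul_of_nonneg_right h4 hgL.le
      linarith
    exact_mod_cast h2
  have hsmall : ∀ k, k0 ≤ k → ((k + K0 + 1 : ℕ) : ℝ) * (t.δ / 2 ^ (k + 1)) ≤ b - α := by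
    intro k hk
    have h1 := (hk0 k hk).2.1
    have h2k : (0:ℝ) < 2 ^ k := by positivity
    have h3 : ((k + K0 + 1 : ℕ) : ℝ) * (t.δ / 2 ^ (k + 1)) ≤ (k + (K0 + 2)) * (1 / 2 ^ k) := by
      apply mul_le_mul
      · push_cast; linarith
      · rw [div_le_div_iff₀ (by positivity) h2k, pow_succ]
        nlinarith
      · positivity
      · positivity
    have h4 : ((k:ℝ) + (K0 + 2)) * (1 / 2 ^ k) ≤ b / 2 := by
      rw [mul_one_div, div_le_iff₀ h2k]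
      exact h1
    linarith
  set H : ℕ → ℝ := fun n => ∑ i ∈ Finset.range n, (1 / ((i:ℝ) + 1)) with hH
  set c' : ℝ := t.δ / (4 * ((2 * K0 + 3) * (g + t.L))) with hc'
  have hc'0 : 0 < c' := by positivity
  have main : ∀ m : ℕ, ∃ τ : ℝ, 0 ≤ τ ∧ c' * (H (k0 + m) - H k0) ≤ τ ∧
      Blk t (Gr a F 0 τ) (2 ^ k0) (a * ((2 ^ k0 : ℕ) : ℝ)) (F 0 * ((2 ^ k0 : ℕ) : ℝ))
        (2 ^ (k0 + m)) ((a + τ) * ((2 ^ (k0 + m) : ℕ) : ℝ)) (F τ * ((2 ^ (k0 + m) : ℕ) : ℝ)) := by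
    intro m
    induction m with
    | zero =>
      refine ⟨0, le_rfl, by simp, ?_⟩
      rw [add_zero, add_zero]
      refine (Blk.move t le_rfl le_rfl le_rfl).mono ?_
      rintro z ⟨r, hr1, hr2, -⟩
      exact absurd hr1 (not_le.2 hr2)
    | succ m ih =>
      obtain ⟨τ, hτ0, hτ, hB⟩ := ih
      obtain ⟨Ad, hAd, hB2⟩ := block t hα0 hαa hc0 hc g hg F hF hmod K0 hK0.le (k0 + m)
        (hsmall _ (by omega)) (hcost _ (by omega)) τ hτ0
      have hcpos : (0:ℝ) < cost K0 g t.L (k0 + m) := by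
        have : 0 < cost K0 g t.L (k0 + m) := by rw [cost]; positivity
        exact_mod_cast this
      have hAd2 : c' * (1 / (((k0 + m : ℕ) : ℝ) + 1)) ≤ Ad := by
        refine le_trans ?_ hAd
        rw [hc', div_mul_div_comm, mul_one]
        apply div_le_div_of_nonneg_left hδ.le (by positivity)
        rw [cost]
        push_cast
        have hkm : (0:ℝ) ≤ (k0:ℝ) + m := by positivity
        have h6 : 2 * ((k0:ℝ) + m + K0 + 1) + 1 ≤ (2 * K0 + 3) * ((k0 : ℝ) + m + 1) := by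
          have hK : (0:ℝ) ≤ K0 := by positivity
          nlinarith
        have h7 := mul_le_mul_of_nonneg_right h6 (show (0:ℝ) ≤ 4 * (g + t.L) by positivity)
        refine le_trans (le_of_eq ?_) (h7.trans (le_of_eq ?_))
        · ring
        · ring
      have hAd0 : 0 ≤ Ad := le_trans (by positivity) hAd2
      refine ⟨τ + Ad, by linarith, ?_, ?_⟩
      · have h8 : H (k0 + (m + 1)) = H (k0 + m) + 1 / (((k0 + m : ℕ) : ℝ) + 1) := by
          rw [hH]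
          simp only
          rw [← add_assoc, Finset.sum_range_succ]
        rw [h8]
        nlinarith
      · refine (hB.comp hB2).mono ?_
        rintro z ⟨r, hr1, hr2, rfl⟩
        rcases lt_or_ge r τ with hr | hr
        · left; exact ⟨r, hr1, hr, rfl⟩
        · right; exact ⟨r, hr, hr2, rfl⟩
  have hdiv : Tendsto H atTop atTop := Real.tendsto_sum_range_one_div_nat_succ_atTop
  obtain ⟨n1, hn1⟩ := eventually_atTop.1 (hdiv.eventually_ge_atTop (H k0 + 2 / c'))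
  obtain ⟨τ, hτ0, hτ, hB⟩ := main n1
  have hτ1 : 1 < τ := by
    have h9 := hn1 (k0 + n1) (by omega)
    have h10 : c' * (2 / c') ≤ c' * (H (k0 + n1) - H k0) :=
      mul_le_mul_of_nonneg_left (by linarith) hc'0.le
    have h11 : c' * (2 / c') = 2 := by field_simp
    linarith
  set n2 : ℕ := 2 ^ (k0 + n1) with hn2
  obtain ⟨n3, hn3⟩ := exists_nat_ge (max (n2 : ℝ) (max ((a + τ) * n2 / A) (F τ * n2 / A')))
  have h12 : (n2 : ℝ) ≤ n3 := (le_max_left _ _).trans hn3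
  have h13 : (a + τ) * n2 / A ≤ n3 := ((le_max_left _ _).trans (le_max_right _ _)).trans hn3
  have h14 : F τ * n2 / A' ≤ n3 := ((le_max_right _ _).trans (le_max_right _ _)).trans hn3
  rw [div_le_iff₀' hA] at h13
  rw [div_le_iff₀' hA'] at h14
  have hk00 := hk0 k0 le_rfl
  have hN2 : (N:ℝ) ≤ ((2 ^ k0 : ℕ) : ℝ) := by
    push_cast
    have := hk00.2.2.2.2
    have hk : (0:ℝ) ≤ k0 := by positivity
    linarith
  have mv1 : Blk t ∅ N (A * N) (A' * N) (2 ^ k0) (a * ((2 ^ k0 : ℕ) : ℝ))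
      (F 0 * ((2 ^ k0 : ℕ) : ℝ)) := by
    apply Blk.move t (by exact_mod_cast hN2)
    · push_cast
      have := hk00.2.2.1
      have hk : (0:ℝ) ≤ k0 := by positivity
      linarith
    · push_cast
      have := hk00.2.2.2.1
      have hk : (0:ℝ) ≤ k0 := by positivity
      have h15 : b * 2 ^ k0 ≤ F 0 * 2 ^ k0 := mul_le_mul_of_nonneg_right (hF 0) (by positivity)
      linarith
  have mv2 : Blk t ∅ n2 ((a + τ) * n2) (F τ * n2) n3 (A * n3) (A' * n3) :=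
    Blk.move t (by exact_mod_cast h12) h13 h14
  refine ⟨n3, ((mv1.comp hB).comp mv2).mono ?_⟩
  rintro z ⟨r, hr1, hr2, rfl⟩
  left; right
  exact ⟨r, hr1, by linarith, rfl⟩

end X109.TG
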